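import Pool.Agent.H.MP_56c280_lc.Main

namespace Pool.Agent.Results.MP_56c280_lc.PathCycle

open Pool.Agent.Lib.CX Pool.Agent.H.MP_56c280_lc

theorem result : InP (fun a : {a : Gr // PathOrCycle a} => Wins a.1.G ∅) ∧
    (∀ n, Wins (SimpleGraph.pathGraph n) ∅ ↔ ¬ (n = 1 ∨ n = 5 ∨ n % 4 = 2)) ∧
    (∀ n, 3 ≤ n → (Wins (SimpleGraph.cycleGraph n) ∅ ↔ n = 4 ∨ n = 8 ∨ 13 ≤ n ∧ n % 4 = 1)) :=
  ⟨⟨fun a => ans a.1, let ⟨p, q, h⟩ := ans_pt; ⟨p, q, fun a => h a.1⟩, fun a => ans_iff a.2⟩, path_wins, fun _ => cyc_wins⟩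

end Pool.Agent.Results.MP_56c280_lc.PathCycle
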